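import Pool.Agent.Helper73.DC.St3

/-!
Project DC (MP_26f0da_lc), module F3: changing a digit.
-/

set_option autoImplicit false

namespace Pool.Agent.Helper42.DC

open Pool.Agent.Helper73.DC
open Finset
open scoped Classical

theorem dg_lo {M i j x0 y : ℕ} (hM : 0 < M) (hj : j < i) :
    dg M (x0 + M ^ i * y) j = dg M x0 j := by
  unfold dg
  have h1 : M ^ i * y = M ^ j * (M * (M ^ (i - j - 1) * y)) := by
    have : M ^ i = M ^ j * (M * M ^ (i - j - 1)) := by
      rw [← pow_succ', ← pow_add]; congr 1; omega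
    rw [this]; ring
  rw [h1, Nat.add_mul_div_left _ _ (pow_pos hM j), Nat.add_mul_mod_self_left]

theorem dg_hi {M i j x0 y : ℕ} (hM : 0 < M) (hx : x0 < M ^ i) (hj : i ≤ j) :
    dg M (x0 + M ^ i * y) j = dg M y (j - i) := by
  unfold dg
  have h1 : M ^ j = M ^ i * M ^ (j - i) := by rw [← pow_add]; congr 1; omega
  rw [h1, ← Nat.div_div_eq_div_mul, Nat.add_mul_div_left _ _ (pow_pos hM i),
    Nat.div_eq_of_lt hx, Nat.zero_add]

theorem mF3 : StF3 := by
  intro M x i d n hM hd hi hx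
  have hP : 0 < M ^ i := pow_pos hM i
  obtain ⟨x0, hx0⟩ : ∃ x0, x0 = x % M ^ i := ⟨_, rfl⟩
  obtain ⟨q, hq⟩ : ∃ q, q = x / M ^ i / M := ⟨_, rfl⟩
  obtain ⟨e, he⟩ : ∃ e, e = dg M x i := ⟨_, rfl⟩
  have hx0lt : x0 < M ^ i := by rw [hx0]; exact Nat.mod_lt _ hP
  have helt : e < M := by rw [he]; exact Nat.mod_lt _ hM
  have hxe : x = x0 + M ^ i * (e + M * q) := by
    have h1 := Nat.mod_add_div x (M ^ i)
    have h2 : e + M * q = x / M ^ i := by
      rw [he, hq]; exact Nat.mod_add_div _ _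
    rw [h2, hx0]; exact h1.symm
  have hsd : sd M x i d = x0 + M ^ i * (d + M * q) := by
    unfold sd
    rw [← he]
    have h1 : x = (x0 + M ^ i * (M * q)) + e * M ^ i := by rw [hxe]; ring
    have h2 : x - e * M ^ i = x0 + M ^ i * (M * q) := by
      conv_lhs => rw [h1]
      exact Nat.add_sub_cancel _ _
    rw [h2]; ring
  refine ⟨?_, ?_, ?_⟩
  · have hpow : M ^ n = M ^ i * (M * M ^ (n - i - 1)) := by
      rw [← pow_succ', ← pow_add]; congr 1; omega
    have hqlt : q < M ^ (n - i - 1) := by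
      by_contra hc
      have hc' : M ^ (n - i - 1) ≤ q := not_lt.1 hc
      have h3 : M ^ i * (M * M ^ (n - i - 1)) ≤ M ^ i * (M * q) :=
        Nat.mul_le_mul_left _ (Nat.mul_le_mul_left _ hc')
      have h4 : M ^ i * (M * q) ≤ x := by
        rw [hxe, Nat.mul_add]
        omega
      rw [hpow] at hx
      omega
    have h5 : d + M * q + 1 ≤ M * M ^ (n - i - 1) := by
      have h6 : M * (q + 1) ≤ M * M ^ (n - i - 1) := Nat.mul_le_mul_left _ hqlt
      rw [Nat.mul_add, Nat.mul_one] at h6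
      omega
    have h7 : M ^ i * (d + M * q + 1) ≤ M ^ i * (M * M ^ (n - i - 1)) :=
      Nat.mul_le_mul_left _ h5
    rw [Nat.mul_add, Nat.mul_one] at h7
    rw [hsd, hpow]
    omega
  · intro j
    rw [hsd]
    rcases lt_trichotomy j i with h | h | h
    · rw [if_neg (by omega), dg_lo hM h]
      conv_rhs => rw [hxe, dg_lo hM h]
    · subst h
      rw [if_pos rfl, dg_hi hM hx0lt (le_refl _)]
      unfold dg
      rw [Nat.sub_self, pow_zero, Nat.div_one, Nat.add_mul_mod_self_left, Nat.mod_eq_of_lt hd]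
    · rw [if_neg (by omega), dg_hi hM hx0lt h.le]
      conv_rhs => rw [hxe, dg_hi hM hx0lt h.le]
      unfold dg
      have h1 : M ^ (j - i) = M * M ^ (j - i - 1) := by
        rw [← pow_succ']; congr 1; omega
      rw [h1, ← Nat.div_div_eq_div_mul, ← Nat.div_div_eq_div_mul,
        Nat.add_mul_div_left _ _ hM, Nat.add_mul_div_left _ _ hM, Nat.div_eq_of_lt hd,
        Nat.div_eq_of_lt helt]
  · intro cap hcap
    unfold sdc sd pw
    rw [min_eq_left (by omega)]

end Pool.Agent.Helper42.DC
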