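import Pool.Agent.Helper73.DC.St4

/-!
Project DC (MP_26f0da_lc), module M5: decoding of step numbers is E2 and exact.
-/

set_option autoImplicit false

namespace Pool.Agent.Helper42.DC

open Pool.Agent.Helper73.DC
open Finset
open scoped Classical

/-- The decision tree of one decoding step. -/
def tree (st t y D Q R a a1 a0 a2 a3 b1 b2 b4 b5 : ℕ) : ℕ :=
  if st ≠ 0 then a else
  if t ≤ 1 then (if y = 0 then a1 else a0) else
  if D = 0 then a0 else
  if Q = 0 then (if R = 0 then a2 else a0) else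
  if Q = 1 then b1 else
  if Q = 2 then b2 else
  if Q = 3 then (if R = 0 then a3 else a0) else
  if Q = 4 then b4 else b5

theorem tree_le {st t y D Q R a a1 a0 a2 a3 b1 b2 b4 b5 N : ℕ} (h : a ≤ N) (h1 : a1 ≤ N)
    (h0 : a0 ≤ N) (h2 : a2 ≤ N) (h3 : a3 ≤ N) (g1 : b1 ≤ N) (g2 : b2 ≤ N) (g4 : b4 ≤ N)
    (g5 : b5 ≤ N) : tree st t y D Q R a a1 a0 a2 a3 b1 b2 b4 b5 ≤ N := by
  unfold tree
  split_ifs <;> assumption

section E2

variable {α : Type} [Fintype α]

theorem E2ite (h2 : StL2) {p : List α → (ℕ → ℕ) → Prop} [∀ w v, Decidable (p w v)]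
    {F G : VF α} (hp : E2P p) (hF : E2 F) (hG : E2 G) :
    E2 (fun w v => if p w v then F w v else G w v) := by
  have h := (h2 (α := α)).2.2 p F G hp hF hG
  convert h

theorem E2eq (h2 : StL2) {F : VF α} (hF : E2 F) (n : ℕ) : E2P (fun w v => F w v = n) :=
  ((h2 (α := α)).1 F (fun _ _ => n) hF (E2.const n)).2.2

theorem E2le (h2 : StL2) {F : VF α} (hF : E2 F) (n : ℕ) : E2P (fun w v => F w v ≤ n) :=
  ((h2 (α := α)).1 F (fun _ _ => n) hF (E2.const n)).1

theorem E2ne (h2 : StL2) {F : VF α} (hF : E2 F) (n : ℕ) : E2P (fun w v => F w v ≠ n) :=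
  ((h2 (α := α)).2.1 _ _ (E2eq h2 hF n) (E2eq h2 hF n)).1

theorem E2tree (h2 : StL2) {st t y D Q R a a1 a0 a2 a3 b1 b2 b4 b5 : VF α}
    (e1 : E2 st) (e2 : E2 t) (e3 : E2 y) (e4 : E2 D) (e5 : E2 Q) (e6 : E2 R) (e7 : E2 a)
    (e8 : E2 a1) (e9 : E2 a0) (e10 : E2 a2) (e11 : E2 a3) (e12 : E2 b1) (e13 : E2 b2)
    (e14 : E2 b4) (e15 : E2 b5) :
    E2 (fun w v => tree (st w v) (t w v) (y w v) (D w v) (Q w v) (R w v) (a w v) (a1 w v)
      (a0 w v) (a2 w v) (a3 w v) (b1 w v) (b2 w v) (b4 w v) (b5 w v)) := by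
  unfold tree
  exact E2ite h2 (E2ne h2 e1 0) e7
    (E2ite h2 (E2le h2 e2 1) (E2ite h2 (E2eq h2 e3 0) e8 e9)
    (E2ite h2 (E2eq h2 e4 0) e9
    (E2ite h2 (E2eq h2 e5 0) (E2ite h2 (E2eq h2 e6 0) e10 e9)
    (E2ite h2 (E2eq h2 e5 1) e12
    (E2ite h2 (E2eq h2 e5 2) e13
    (E2ite h2 (E2eq h2 e5 3) (E2ite h2 (E2eq h2 e6 0) e11 e9)
    (E2ite h2 (E2eq h2 e5 4) e14 e15)))))))

end E2

/-- One decoding step at depth `D`; the state is (status, t, o, s, y). -/
def stp (cap b bh hm D : ℕ) (u : ℕ → ℕ) : ℕ → ℕ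
  | 0 => tree (u 0) (u 1) (u 4) D (u 4 / pw cap b (D - 1) % 6) (u 4 % pw cap b (D - 1))
      (u 0) 2 1 3 4 0 0 0 0
  | 1 => tree (u 0) (u 1) (u 4) D (u 4 / pw cap b (D - 1) % 6) (u 4 % pw cap b (D - 1))
      (u 1) (u 1) 0 (u 1) (u 1) (u 1 - 1) (dg bh hm (u 1)) (dg bh hm (u 1)) (u 1 - 1)
  | 2 => tree (u 0) (u 1) (u 4) D (u 4 / pw cap b (D - 1) % 6) (u 4 % pw cap b (D - 1))
      (u 2) (u 2) 0 (u 2) (u 2) ((u 2 + 1) % 3) ((u 2 + 2) % 3) ((u 2 + 2) % 3) ((u 2 + 1) % 3)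
  | 3 => tree (u 0) (u 1) (u 4) D (u 4 / pw cap b (D - 1) % 6) (u 4 % pw cap b (D - 1))
      (u 3) (u 3) 0 (u 3) (u 3) 0 0 1 1
  | _ => tree (u 0) (u 1) (u 4) D (u 4 / pw cap b (D - 1) % 6) (u 4 % pw cap b (D - 1))
      (u 4) 0 0 0 0 (u 4 % pw cap b (D - 1)) (u 4 % pw cap b (D - 1)) (u 4 % pw cap b (D - 1))
      (u 4 % pw cap b (D - 1))

/-- Finished result. -/
def fin (u : ℕ → ℕ) : Op := ⟨u 0 - 1, u 1, u 2, u 3⟩

/-- The result from the state `u` at depth `D`. -/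
def res (cap b bh hm D : ℕ) (u : ℕ → ℕ) : Op :=
  if u 0 ≠ 0 then fin u else dcdc cap b bh hm D (u 1) (u 2) (u 3) (u 4)

theorem res_succ (cap b bh hm D : ℕ) (u : ℕ → ℕ) :
    res cap b bh hm D (stp cap b bh hm (D + 1) u) = res cap b bh hm (D + 1) u := by
  unfold res fin
  by_cases h0 : u 0 ≠ 0
  · simp only [stp, tree, if_pos h0]
  · rw [if_neg h0]
    by_cases h1 : u 1 ≤ 1
    · by_cases h4 : u 4 = 0
      · simp [stp, tree, if_neg h0, dcdc, h1, h4]
      · simp [stp, tree, if_neg h0, dcdc, h1, h4]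
    · have hD : ¬ (D + 1 = 0) := by omega
      simp only [stp, tree, if_neg h0, if_neg h1, if_neg hD, dcdc, Nat.add_sub_cancel]
      generalize u 4 / pw cap b D % 6 = Q
      generalize u 4 % pw cap b D = R
      by_cases q0 : Q = 0
      · by_cases r0 : R = 0
        · simp [q0, r0]
        · simp [q0, r0]
      · by_cases q1 : Q = 1
        · simp [q1]
        · by_cases q2 : Q = 2
          · simp [q2]
          · by_cases q3 : Q = 3
            · by_cases r0 : R = 0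
              · simp [q3, r0]
              · simp [q3, r0]
            · by_cases q4 : Q = 4
              · simp [q4]
              · simp [q0, q1, q2, q3, q4]

theorem res_zero (cap b bh hm : ℕ) (u : ℕ → ℕ) :
    stp cap b bh hm 0 u 0 ≠ 0 ∧ fin (stp cap b bh hm 0 u) = res cap b bh hm 0 u := by
  unfold res fin
  by_cases h0 : u 0 ≠ 0
  · simp [stp, tree, h0]
  · rw [if_neg h0]
    by_cases h1 : u 1 ≤ 1
    · by_cases h4 : u 4 = 0
      · simp [stp, tree, if_neg h0, dcdc, h1, h4]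
      · simp [stp, tree, if_neg h0, dcdc, h1, h4]
    · simp [stp, tree, if_neg h0, dcdc, h1]

theorem stp_congr (cap b bh hm D : ℕ) (u u' : ℕ → ℕ) (h : ∀ i < 5, u i = u' i) (i : ℕ) :
    stp cap b bh hm D u i = stp cap b bh hm D u' i := by
  have h0 := h 0 (by omega)
  have h1 := h 1 (by omega)
  have h2 := h 2 (by omega)
  have h3 := h 3 (by omega)
  have h4 := h 4 (by omega)
  match i with
  | 0 => simp only [stp, h0, h1, h4]
  | 1 => simp only [stp, h0, h1, h4]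
  | 2 => simp only [stp, h0, h1, h2, h4]
  | 3 => simp only [stp, h0, h1, h3, h4]
  | i + 4 => simp only [stp, h0, h1, h4]

section main

variable {α : Type} [Fintype α]

/-- initial values -/
def F0 (α : Type) : ℕ → VF α
  | 0 => fun _ _ => 0
  | i + 1 => fun _ v => v (i + 5)

/-- the step as a function of the context -/
def G0 (α : Type) : ℕ → VF α :=
  fun i _ c => stp (c 6) (c 7) (c 8) (c 9) (c 10 - c 0) (fun j => c (j + 1)) i

theorem vrec_succ (w : List α) (v : ℕ → ℕ) (n i : ℕ) :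
    vrec 5 (F0 α) (G0 α) w v (n + 1) i =
      stp (v 0) (v 1) (v 2) (v 3) (v 4 - n) (vrec 5 (F0 α) (G0 α) w v n) i := by
  change stp (v 0) (v 1) (v 2) (v 3) (v 4 - n) (cat 5 (vrec 5 (F0 α) (G0 α) w v n) v) i = _
  refine (stp_congr _ _ _ _ _ _ _ ?_ i)
  intro j hj
  unfold cat
  rw [if_pos hj]

theorem E2G0 (h1 : StL1) (h2 : StL2) (h4 : StL4) (h5 : StL5) (i : ℕ) (hi : i < 5) :
    E2 (G0 α i) := by
  have g : ∀ j, E2 (fun (_ : List α) c => c j) := fun j => E2.get j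
  have hD : E2 (fun (_ : List α) c => c 10 - c 0) := (h1 (α := α) _ _ (g 10) (g 0)).1
  have hD1 : E2 (fun (_ : List α) c => c 10 - c 0 - 1) := (h1 (α := α) _ _ hD (E2.const 1)).1
  have hP : E2 (fun (_ : List α) c => pw (c 6) (c 7) (c 10 - c 0 - 1)) :=
    (h5 (α := α) _ _ _ _ _ (g 6) (g 7) hD1 (g 0) (g 0)).1
  have hR : E2 (fun (_ : List α) c => c 5 % pw (c 6) (c 7) (c 10 - c 0 - 1)) :=
    (h4 (α := α) _ _ (g 5) hP).2
  have hQ0 : E2 (fun (_ : List α) c => c 5 / pw (c 6) (c 7) (c 10 - c 0 - 1)) :=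
    (h4 (α := α) _ _ (g 5) hP).1
  have hQ : E2 (fun (_ : List α) c => c 5 / pw (c 6) (c 7) (c 10 - c 0 - 1) % 6) :=
    (h4 (α := α) _ _ hQ0 (E2.const 6)).2
  have hdg : E2 (fun (_ : List α) c => dg (c 8) (c 9) (c 2)) :=
    (h5 (α := α) _ _ _ _ _ (g 8) (g 9) (g 2) (g 0) (g 0)).2.1
  have ht1 : E2 (fun (_ : List α) c => c 2 - 1) := (h1 (α := α) _ _ (g 2) (E2.const 1)).1
  have ho1 : E2 (fun (_ : List α) c => (c 3 + 1) % 3) :=
    (h4 (α := α) _ _ ((g 3).add (E2.const 1)) (E2.const 3)).2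
  have ho2 : E2 (fun (_ : List α) c => (c 3 + 2) % 3) :=
    (h4 (α := α) _ _ ((g 3).add (E2.const 2)) (E2.const 3)).2
  have k : ∀ n : ℕ, E2 (α := α) (fun _ _ => n) := fun n => E2.const n
  match i, hi with
  | 0, _ =>
    exact E2tree h2 (g 1) (g 2) (g 5) hD hQ hR (g 1) (k 2) (k 1) (k 3) (k 4) (k 0) (k 0)
      (k 0) (k 0)
  | 1, _ =>
    exact E2tree h2 (g 1) (g 2) (g 5) hD hQ hR (g 2) (g 2) (k 0) (g 2) (g 2) ht1 hdg
      hdg ht1
  | 2, _ =>
    exact E2tree h2 (g 1) (g 2) (g 5) hD hQ hR (g 3) (g 3) (k 0) (g 3) (g 3) ho1 ho2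
      ho2 ho1
  | 3, _ =>
    exact E2tree h2 (g 1) (g 2) (g 5) hD hQ hR (g 4) (g 4) (k 0) (g 4) (g 4) (k 0) (k 0)
      (k 1) (k 1)
  | 4, _ =>
    exact E2tree h2 (g 1) (g 2) (g 5) hD hQ hR (g 5) (k 0) (k 0) (k 0) (k 0) hR hR
      hR hR

theorem dg_le (B x i : ℕ) : dg B x i ≤ x := by
  unfold dg
  exact (Nat.mod_le _ _).trans (Nat.div_le_self _ _)

theorem bound (w : List α) (v : ℕ → ℕ) (n : ℕ) : ∀ i < 5,
    vrec 5 (F0 α) (G0 α) w v n i ≤ v 3 + (v 5 + (v 6 + (v 7 + (v 8 + 4)))) := by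
  induction n with
  | zero =>
    intro i hi
    match i, hi with
    | 0, _ => exact Nat.zero_le _
    | 1, _ => change v 5 ≤ _; omega
    | 2, _ => change v 6 ≤ _; omega
    | 3, _ => change v 7 ≤ _; omega
    | 4, _ => change v 8 ≤ _; omega
  | succ n ih =>
    have i0 := ih 0 (by omega)
    have i1 := ih 1 (by omega)
    have i2 := ih 2 (by omega)
    have i3 := ih 3 (by omega)
    have i4 := ih 4 (by omega)
    intro i hi
    rw [vrec_succ]
    generalize vrec 5 (F0 α) (G0 α) w v n = u at *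
    match i, hi with
    | 0, _ =>
      exact tree_le i0 (by omega) (by omega) (by omega) (by omega) (by omega) (by omega)
        (by omega) (by omega)
    | 1, _ =>
      have hd := dg_le (v 2) (v 3) (u 1)
      exact tree_le i1 i1 (by omega) i1 i1 (by omega) (by omega) (by omega) (by omega)
    | 2, _ => exact tree_le i2 i2 (by omega) i2 i2 (by omega) (by omega) (by omega) (by omega)
    | 3, _ => exact tree_le i3 i3 (by omega) i3 i3 (by omega) (by omega) (by omega) (by omega)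
    | 4, _ =>
      have hm := Nat.mod_le (u 4) (pw (v 0) (v 1) (v 4 - n - 1))
      exact tree_le i4 (by omega) (by omega) (by omega) (by omega) (by omega) (by omega)
        (by omega) (by omega)

theorem inv (w : List α) (v : ℕ → ℕ) (n : ℕ) (hn : n ≤ v 4) :
    res (v 0) (v 1) (v 2) (v 3) (v 4 - n) (vrec 5 (F0 α) (G0 α) w v n) =
      dcdc (v 0) (v 1) (v 2) (v 3) (v 4) (v 5) (v 6) (v 7) (v 8) := by
  induction n with
  | zero =>
    unfold res
    rw [if_neg (by intro h; exact h rfl)]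
    rfl
  | succ n ih =>
    rw [← ih (by omega)]
    have h1 : (vrec 5 (F0 α) (G0 α) w v (n + 1)) =
        stp (v 0) (v 1) (v 2) (v 3) (v 4 - n) (vrec 5 (F0 α) (G0 α) w v n) := by
      funext i; exact vrec_succ w v n i
    have h2 : v 4 - n = (v 4 - (n + 1)) + 1 := by omega
    rw [h1, h2]
    exact res_succ _ _ _ _ _ _

theorem final (w : List α) (v : ℕ → ℕ) :
    fin (vrec 5 (F0 α) (G0 α) w v (v 4 + 1)) =
      dcdc (v 0) (v 1) (v 2) (v 3) (v 4) (v 5) (v 6) (v 7) (v 8) := by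
  have h1 : (vrec 5 (F0 α) (G0 α) w v (v 4 + 1)) =
      stp (v 0) (v 1) (v 2) (v 3) (v 4 - v 4) (vrec 5 (F0 α) (G0 α) w v (v 4)) := by
    funext i; exact vrec_succ w v (v 4) i
  have h2 := inv w v (v 4) (le_refl _)
  rw [Nat.sub_self] at h1 h2
  rw [h1, (res_zero _ _ _ _ _).2, h2]

end main

theorem exact_part (cap b bh hm : ℕ) (hb : 1 ≤ b) : ∀ (d t o s y : ℕ), b ^ d ≤ cap →
    dcdc cap b bh hm d t o s y = dcd b (fun j => dg bh hm j) d t o s y := by
  intro d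
  induction d with
  | zero => intro t o s y _; rfl
  | succ d ih =>
    intro t o s y h
    have h1 : b ^ d ≤ cap := (Nat.pow_le_pow_right hb (Nat.le_succ d)).trans h
    have h2 : pw cap b d = b ^ d := by unfold pw; exact min_eq_left (by omega)
    simp only [dcdc, dcd, h2, ih _ _ _ _ h1]

theorem mM5 : StL1 → StL2 → StL3 → StL4 → StL5 → StL8 → StM5 := by
  intro h1 h2 _ h4 h5 h8
  refine ⟨?_, fun cap b bh hm d t o s y hb h => exact_part cap b bh hm hb d t o s y h⟩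
  intro α _ F hF
  have g : ∀ j, E2 (fun (_ : List α) v => v j) := fun j => E2.get j
  have hF0 : ∀ i < 5, E2 (F0 α i) := by
    intro i hi
    match i, hi with
    | 0, _ => exact E2.zero
    | i + 1, _ => exact g (i + 5)
  have key := h8 (α := α) 5 (F0 α) (G0 α) (fun _ v => v 4 + 1)
    (fun _ v => v 3 + (v 5 + (v 6 + (v 7 + (v 8 + 4))))) hF0 (fun i hi => E2G0 h1 h2 h4 h5 i hi)
    ((g 4).add (E2.const 1))
    ((g 3).add ((g 5).add ((g 6).add ((g 7).add ((g 8).add (E2.const 4))))))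
    (fun w v y _ i hi => bound w v y i hi)
  have sub : ∀ i < 5, E2 (fun w v => vrec 5 (F0 α) (G0 α) w (fun j => F j w v)
      (F 4 w v + 1) i) := fun i hi => (key i hi).subst F hF
  have hfin : ∀ w v, fin (vrec 5 (F0 α) (G0 α) w (fun j => F j w v) (F 4 w v + 1)) =
      dcdc (F 0 w v) (F 1 w v) (F 2 w v) (F 3 w v) (F 4 w v) (F 5 w v) (F 6 w v) (F 7 w v)
        (F 8 w v) := fun w v => final w (fun j => F j w v)
  refine ⟨?_, ?_, ?_, ?_⟩
  · have h := (h1 (α := α) _ _ (sub 0 (by omega)) (E2.const 1)).1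
    convert h using 3
    rw [← hfin]
    rfl
  · have h := sub 1 (by omega)
    convert h using 3
    rw [← hfin]
    rfl
  · have h := sub 2 (by omega)
    convert h using 3
    rw [← hfin]
    rfl
  · have h := sub 3 (by omega)
    convert h using 3
    rw [← hfin]
    rfl

end Pool.Agent.Helper42.DC
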